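import Pool.Agent.Helper10.RC.Basic

/-!
Packet RC-QPull of MP_b55b7c_an: pullback of a quasitrace.
-/

open scoped ENNReal NNReal InnerProductSpace ComplexOrder
open Filter Topology

attribute [-instance] CStarMatrix.instAlgebra CStarMatrix.instModule CStarMatrix.instSMul
  CStarMatrix.instMulAction CStarMatrix.instDistribMulAction

noncomputable section
namespace RC
universe u

variable {A B : Type u} [CStarAlgebra A] [CStarAlgebra B]

theorem mp_mul (j : B →⋆ₐ[ℂ] A) {ι κ μ : Type} [Fintype κ] (x : CStarMatrix ι κ B)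
    (y : CStarMatrix κ μ B) : mp j (x * y) = mp j x * mp j y := by
  ext i k
  show j ((x * y) i k) = _
  rw [CStarMatrix.mul_apply, map_sum, CStarMatrix.mul_apply]
  refine Finset.sum_congr rfl fun l _ => ?_
  rw [map_mul]
  rfl

theorem mp_conj (j : B →⋆ₐ[ℂ] A) {ι κ : Type} (x : CStarMatrix ι κ B) :
    mp j x.conjTranspose = (mp j x).conjTranspose := by
  ext i k
  show j (star (x k i)) = star (j (x k i))
  exact map_star j _

theorem mp_add (j : B →⋆ₐ[ℂ] A) {ι κ : Type} (x y : CStarMatrix ι κ B) :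
    mp j (x + y) = mp j x + mp j y := by
  ext i k
  show j (x i k + y i k) = j (x i k) + j (y i k)
  exact map_add j _ _

theorem mp_rsmul [PartialOrder A] [StarOrderedRing A] [PartialOrder B] [StarOrderedRing B]
    (j : B →⋆ₐ[ℂ] A) {ι κ : Type} [Fintype ι] [Fintype κ] (c : ℝ)
    (x : CStarMatrix ι κ B) : mp j (c • x) = c • mp j x := by
  ext i k
  show j (c • x i k) = c • j (x i k)
  exact ((j : B →ₐ[ℂ] A).toLinearMap).map_smul_of_tower c (x i k)

theorem mp_one (j : B →⋆ₐ[ℂ] A) {ι : Type} [DecidableEq ι] :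
    mp j (1 : CStarMatrix ι ι B) = 1 := by
  ext i k
  show j ((1 : Matrix ι ι B) i k) = (1 : Matrix ι ι A) i k
  by_cases h : i = k
  · rw [h, Matrix.one_apply_eq, Matrix.one_apply_eq, map_one]
  · rw [Matrix.one_apply_ne h, Matrix.one_apply_ne h, map_zero]

theorem qPullP (h : MpP.{u}) : QPullP.{u} := by
  intro A _ _ _ B _ _ _ j hj σ
  refine ⟨{ τ := fun ι _ _ x => σ.τ ι (mp j x)
            nonneg := ?_, trace := ?_, add := ?_, smul := ?_, one := ?_ }, ?_⟩
  · intro ι _ _ a ha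
    exact σ.nonneg ι _ ((h A B j hj ι ι a a).1.1 ha)
  · intro ι κ _ _ _ _ x
    show σ.τ ι (mp j (x * x.conjTranspose)) = σ.τ κ (mp j (x.conjTranspose * x))
    rw [mp_mul, mp_mul, mp_conj]
    exact σ.trace ι κ (mp j x)
  · intro ι _ _ a b ha hb hab
    show σ.τ ι (mp j (a + b)) = σ.τ ι (mp j a) + σ.τ ι (mp j b)
    rw [mp_add]
    refine σ.add ι _ _ ((h A B j hj ι ι a a).1.1 ha) ((h A B j hj ι ι b b).1.1 hb) ?_
    rw [← mp_mul, ← mp_mul, hab]
  · intro ι _ _ c a hc ha
    show σ.τ ι (mp j (c • a)) = c * σ.τ ι (mp j a)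
    rw [mp_rsmul]
    exact σ.smul ι c _ hc ((h A B j hj ι ι a a).1.1 ha)
  · show σ.τ Unit (mp j 1) = 1
    rw [mp_one]
    exact σ.one
  · intro κ _ _ x hx
    unfold QTrace.dim
    refine iSup_congr fun n => ?_
    show σ.τ κ (mp j (cfc (fun t : ℝ => min 1 ((n : ℝ) * t)) x)) = _
    rw [(h A B j hj κ κ x x).2.2.2 _ (by fun_prop) hx.isSelfAdjoint]

end RC
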